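import Pool.Agent.N728.QL.Def

/-! # Project QL (helper728), subtask SP (helper327): the off-diagonal terms for the periodic model -/

namespace Pool.Agent.N327.QL

open Finset Pool.Agent.N728.QL

noncomputable section

/-! ### Sums over intervals of functions with block sums zero -/

theorem sum_Ico_add (f : ℤ → ℝ) {a b c : ℤ} (hab : a ≤ b) (hbc : b ≤ c) :
    ∑ n ∈ Ico a b, f n + ∑ n ∈ Ico b c, f n = ∑ n ∈ Ico a c, f n := by
  rw [← Finset.Ico_union_Ico_eq_Ico hab hbc, Finset.sum_union (Finset.Ico_disjoint_Ico_consecutive a b c)]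

theorem blocks_zero (f : ℤ → ℝ) (H : ℤ) (hH : 0 < H)
    (h0 : ∀ k : ℤ, ∑ b ∈ Ico (k * H) ((k + 1) * H), f b = 0) (k l : ℤ) (hkl : k ≤ l) :
    ∑ b ∈ Ico (k * H) (l * H), f b = 0 := by
  induction l, hkl using Int.leInduction with
  | base => simp
  | succ n hn ih =>
    rw [← sum_Ico_add f (a := k * H) (b := n * H) (c := (n + 1) * H) (by nlinarith) (by nlinarith), ih, h0 n]
    simp

theorem abs_sum_Ico_le (f : ℤ → ℝ) (hf : ∀ b, |f b| ≤ 1) {a b : ℤ} (hab : a ≤ b) :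
    |∑ n ∈ Ico a b, f n| ≤ (b : ℝ) - a := by
  calc |∑ n ∈ Ico a b, f n| ≤ ∑ n ∈ Ico a b, |f n| := Finset.abs_sum_le_sum_abs _ _
    _ ≤ ∑ n ∈ Ico a b, (1 : ℝ) := Finset.sum_le_sum fun n _ => hf n
    _ = (b : ℝ) - a := by
      rw [Finset.sum_const, Int.card_Ico, nsmul_eq_mul, mul_one]
      have : (((b - a).toNat : ℤ) : ℝ) = ((b - a : ℤ) : ℝ) := by
        rw [Int.toNat_of_nonneg (by omega)]
      push_cast at this
      simpa using this

theorem interval_bound (f : ℤ → ℝ) (H : ℤ) (hH : 0 < H) (hf : ∀ b, |f b| ≤ 1)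
    (h0 : ∀ k : ℤ, ∑ b ∈ Ico (k * H) ((k + 1) * H), f b = 0) (a b : ℤ) :
    |∑ n ∈ Ico a b, f n| ≤ 2 * H := by
  rcases le_or_gt a b with hab | hab
  swap
  · rw [Finset.Ico_eq_empty (by omega)]
    simp
    positivity
  have hk1 : (a / H) * H ≤ a := Int.ediv_mul_le a hH.ne'
  have hk2 : a < (a / H) * H + H := by
    have := Int.lt_ediv_add_one_mul_self a hH
    linarith [this]
  have hl1 : (b / H) * H ≤ b := Int.ediv_mul_le b hH.ne'
  have hl2 : b < (b / H) * H + H := by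
    have := Int.lt_ediv_add_one_mul_self b hH
    linarith [this]
  have hkl : a / H ≤ b / H := Int.ediv_le_ediv hH hab
  have e1 := sum_Ico_add f hk1 hab
  have e2 := sum_Ico_add f (a := (a / H) * H) (b := (b / H) * H) (c := b) (by nlinarith) hl1
  rw [blocks_zero f H hH h0 _ _ hkl, zero_add] at e2
  have b1 := abs_sum_Ico_le f hf hk1
  have b2 := abs_sum_Ico_le f hf hl1
  have e3 : ∑ n ∈ Ico a b, f n = ∑ n ∈ Ico ((b / H) * H) b, f n - ∑ n ∈ Ico ((a / H) * H) a, f n := by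
    linarith
  rw [e3]
  have c1 : ((a : ℝ) - ((a / H * H : ℤ) : ℝ)) ≤ H := by
    have : a - (a / H) * H ≤ H := by omega
    exact_mod_cast this
  have c2 : ((b : ℝ) - ((b / H * H : ℤ) : ℝ)) ≤ H := by
    have : b - (b / H) * H ≤ H := by omega
    exact_mod_cast this
  calc _ ≤ |∑ n ∈ Ico ((b / H) * H) b, f n| + |∑ n ∈ Ico ((a / H) * H) a, f n| := abs_sub _ _
    _ ≤ H + H := by linarith
    _ = 2 * H := by ring

/-- zero mean for a coarser modulus -/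
theorem zeroMean_of_dvd {F : ℤ → ℝ} {q H : ℕ} (hq : 1 ≤ q) (h : ZeroMean F q H) {D : ℤ} (hD : D ∣ (q : ℤ)) (s k : ℤ) :
    ∑ b ∈ Ico (k * (H : ℤ)) ((k + 1) * H), (if b ≡ s [ZMOD D] then F b else 0) = 0 := by
  have hq' : (0 : ℤ) < q := by exact_mod_cast hq
  have key : ∀ b : ℤ, (if b ≡ s [ZMOD D] then F b else 0) =
      ∑ r ∈ (Ico (0 : ℤ) q).filter (fun r => r ≡ s [ZMOD D]), (if b ≡ r [ZMOD q] then F b else 0) := by
    intro b
    by_cases hb : b ≡ s [ZMOD D]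
    · rw [if_pos hb, Finset.sum_eq_single (b % q)]
      · rw [if_pos]
        exact (Int.mod_modEq b q).symm
      · intro r hr hne
        rw [Finset.mem_filter, Finset.mem_Ico] at hr
        rw [if_neg]
        intro hbr
        apply hne
        have := hbr
        unfold Int.ModEq at this
        rw [this, Int.emod_eq_of_lt hr.1.1 hr.1.2]
      · intro hnot
        exfalso
        apply hnot
        rw [Finset.mem_filter, Finset.mem_Ico]
        refine ⟨⟨Int.emod_nonneg _ hq'.ne', Int.emod_lt_of_pos _ hq'⟩, ?_⟩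
        exact ((Int.mod_modEq b q).of_dvd hD).trans hb
    · rw [if_neg hb]
      symm
      apply Finset.sum_eq_zero
      intro r hr
      rw [Finset.mem_filter] at hr
      rw [if_neg]
      intro hbr
      exact hb ((hbr.of_dvd hD).trans hr.2)
  simp_rw [key]
  rw [Finset.sum_comm]
  apply Finset.sum_eq_zero
  intro r _
  rw [← Finset.sum_filter]
  exact h r k

/-- arithmetic progressions: positive difference -/
theorem prog_bound_pos {F : ℤ → ℝ} {q H : ℕ} (hq : 1 ≤ q) (hH : 1 ≤ H) (hF : ∀ b, |F b| ≤ 1) (h : ZeroMean F q H)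
    {D : ℤ} (hD0 : 0 < D) (hD : D ∣ (q : ℤ)) (s n1 n2 : ℤ) :
    |∑ n ∈ Icc n1 n2, F (s + D * n)| ≤ 2 * H := by
  have e : ∑ n ∈ Icc n1 n2, F (s + D * n) =
      ∑ b ∈ Ico (s + D * n1) (s + D * n2 + 1), (if b ≡ s [ZMOD D] then F b else 0) := by
    rw [← Finset.sum_filter]
    refine Finset.sum_nbij (fun n => s + D * n) ?_ ?_ ?_ ?_
    · intro n hn
      rw [Finset.mem_Icc] at hn
      rw [Finset.mem_filter, Finset.mem_Ico]
      refine ⟨⟨by nlinarith, by nlinarith⟩, ?_⟩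
      exact Int.modEq_iff_dvd.2 ⟨-n, by ring⟩
    · intro n _ n' _ hnn
      simp only at hnn
      have : D * n = D * n' := by linarith
      exact mul_left_cancel₀ hD0.ne' this
    · intro b hb
      rw [Finset.coe_filter, Set.mem_ofPred_eq, Finset.mem_Ico] at hb
      obtain ⟨⟨h1, h2⟩, h3⟩ := hb
      obtain ⟨n, hn⟩ := Int.modEq_iff_dvd.1 h3.symm
      refine ⟨n, ?_, by simp only; linarith⟩
      rw [Finset.coe_Icc, Set.mem_Icc]
      constructor
      · by_contra hlt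
        push Not at hlt
        nlinarith
      · by_contra hlt
        push Not at hlt
        nlinarith
    · intro n _
      rfl
  rw [e]
  have := interval_bound (fun b => if b ≡ s [ZMOD D] then F b else 0) H (by exact_mod_cast hH) (by
    intro b
    by_cases hb : b ≡ s [ZMOD D]
    · simpa [hb] using hF b
    · simp [hb]) (fun k => zeroMean_of_dvd hq h hD s k) (s + D * n1) (s + D * n2 + 1)
  exact_mod_cast this

theorem prog_bound {F : ℤ → ℝ} {q H : ℕ} (hq : 1 ≤ q) (hH : 1 ≤ H) (hF : ∀ b, |F b| ≤ 1) (h : ZeroMean F q H)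
    {D : ℤ} (hD0 : D ≠ 0) (hD : D ∣ (q : ℤ)) (s n1 n2 : ℤ) :
    |∑ n ∈ Icc n1 n2, F (s + D * n)| ≤ 2 * H := by
  rcases lt_or_gt_of_ne hD0 with h1 | h1
  · have e : ∑ n ∈ Icc n1 n2, F (s + D * n) = ∑ n ∈ Icc (-n2) (-n1), F (s + (-D) * n) := by
      refine Finset.sum_nbij (fun n => -n) ?_ ?_ ?_ ?_
      · intro n hn
        rw [Finset.mem_Icc] at hn ⊢
        omega
      · intro n _ n' _ hnn
        simpa using hnn
      · intro n hn
        rw [Finset.coe_Icc, Set.mem_Icc] at hn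
        refine ⟨-n, ?_, by simp⟩
        rw [Finset.coe_Icc, Set.mem_Icc]
        omega
      · intro n _
        simp
    rw [e]
    exact prog_bound_pos hq hH hF h (by omega) ((neg_dvd).2 hD) s _ _
  · exact prog_bound_pos hq hH hF h h1 hD s _ _

/-! ### The weight -/

theorem dvd_PP {z p : ℕ} (hp : p.Prime) (hz : p ≤ z) : (p : ℤ) ∣ (PP 0 z : ℤ) := by
  have : p ∣ PP 0 z := by
    unfold PP
    exact Finset.dvd_prod_of_mem (fun p => p) (by simp [hp, hz, hp.pos])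
  exact_mod_cast this

theorem PP_pos (w z : ℕ) : 1 ≤ PP w z := by
  unfold PP
  exact Nat.succ_le_of_lt (Finset.prod_pos fun p hp => (Finset.mem_filter.1 hp).2.pos)

theorem Rg_congr {w y z : ℕ} (hyz : y ≤ z) {n n' : ℤ} (h : n ≡ n' [ZMOD (PP 0 z : ℤ)]) : Rg w y n ↔ Rg w y n' := by
  unfold Rg
  have key : ∀ p : ℕ, p.Prime → p ≤ y → ((p : ℤ) ∣ n ↔ (p : ℤ) ∣ n') := by
    intro p hp hpy
    have h1 : n ≡ n' [ZMOD (p : ℤ)] := h.of_dvd (dvd_PP hp (hpy.trans hyz))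
    exact Int.ModEq.dvd_iff h1
  constructor
  · intro h2 p hp hw hy hd
    exact h2 p hp hw hy ((key p hp hy).2 hd)
  · intro h2 p hp hw hy hd
    exact h2 p hp hw hy ((key p hp hy).1 hd)

/-- the weight -/
def Wt (c : ℤ) (w y z M : ℕ) (x t : ℤ) : ℝ := rg w y x * rg w y t * lz z ((M : ℤ) * x * t + c)

theorem Wt_congr {c : ℤ} {w y z M : ℕ} (hyz : y ≤ z) {x x' t t' : ℤ} (hx : x ≡ x' [ZMOD (PP 0 z : ℤ)])
    (ht : t ≡ t' [ZMOD (PP 0 z : ℤ)]) : Wt c w y z M x t = Wt c w y z M x' t' := by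
  have h1 : (M : ℤ) * x * t + c ≡ (M : ℤ) * x' * t' + c [ZMOD (PP 0 z : ℤ)] :=
    (((Int.ModEq.refl _).mul hx).mul ht).add_right c
  have e1 : rg w y x = rg w y x' := by
    unfold rg
    by_cases hR : Rg w y x'
    · rw [if_pos hR, if_pos ((Rg_congr hyz hx).2 hR)]
    · rw [if_neg hR, if_neg (fun h => hR ((Rg_congr hyz hx).1 h))]
  have e2 : rg w y t = rg w y t' := by
    unfold rg
    by_cases hR : Rg w y t'
    · rw [if_pos hR, if_pos ((Rg_congr hyz ht).2 hR)]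
    · rw [if_neg hR, if_neg (fun h => hR ((Rg_congr hyz ht).1 h))]
  have e3 : lz z ((M : ℤ) * x * t + c) = lz z ((M : ℤ) * x' * t' + c) := by
    unfold lz
    by_cases hR : Rg 0 z ((M : ℤ) * x' * t' + c)
    · rw [if_pos hR, if_pos ((Rg_congr le_rfl h1).2 hR)]
    · rw [if_neg hR, if_neg (fun h => hR ((Rg_congr le_rfl h1).1 h))]
  unfold Wt
  rw [e1, e2, e3]

theorem VW_pos (w y : ℕ) : 0 < VW w y := by
  unfold VW
  apply Finset.prod_pos
  intro p hp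
  have : (1 : ℝ) < p := by exact_mod_cast (Finset.mem_filter.1 hp).2.one_lt
  have : 1 / (p : ℝ) < 1 := by
    rw [div_lt_one (by linarith)]
    exact this
  linarith

theorem Wt_abs (c : ℤ) (w y z M : ℕ) (x t : ℤ) : |Wt c w y z M x t| ≤ (VW 0 z)⁻¹ := by
  have h1 : |rg w y x| ≤ 1 := by
    unfold rg; split_ifs <;> simp
  have h2 : |rg w y t| ≤ 1 := by
    unfold rg; split_ifs <;> simp
  have hV : 0 < (VW 0 z)⁻¹ := inv_pos.2 (VW_pos 0 z)
  have h3 : |lz z ((M : ℤ) * x * t + c)| ≤ (VW 0 z)⁻¹ := by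
    unfold lz
    split_ifs
    · rw [abs_of_pos hV]
    · simpa using hV.le
  unfold Wt
  rw [abs_mul, abs_mul]
  calc |rg w y x| * |rg w y t| * |lz z ((M : ℤ) * x * t + c)| ≤ 1 * 1 * (VW 0 z)⁻¹ := by
        gcongr
    _ = (VW 0 z)⁻¹ := by ring

/-! ### One line -/

theorem eq_Icc_of_conv (N : Finset ℤ) (hne : N.Nonempty) (hc : ∀ a ∈ N, ∀ b ∈ N, ∀ n, a ≤ n → n ≤ b → n ∈ N) :
    N = Icc (N.min' hne) (N.max' hne) := by
  ext n
  rw [Finset.mem_Icc]
  constructor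
  · intro hn
    exact ⟨N.min'_le n hn, N.le_max' n hn⟩
  · intro hn
    exact hc _ (N.min'_mem hne) _ (N.max'_mem hne) n hn.1 hn.2

theorem between_mul (b n1 n n2 : ℤ) (h1 : n1 ≤ n) (h2 : n ≤ n2) :
    (b * n1 ≤ b * n ∧ b * n ≤ b * n2) ∨ (b * n2 ≤ b * n ∧ b * n ≤ b * n1) := by
  rcases le_total 0 b with hb | hb
  · left
    exact ⟨mul_le_mul_of_nonneg_left h1 hb, mul_le_mul_of_nonneg_left h2 hb⟩
  · right
    exact ⟨mul_le_mul_of_nonpos_left h2 hb, mul_le_mul_of_nonpos_left h1 hb⟩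

/-- the sum over the points of one line, one class -/
theorem line_bound {c : ℤ} {w y z M q H : ℕ} (hyz : y ≤ z) (hq : 1 ≤ q) (hH : 1 ≤ H) {F : ℤ → ℝ}
    (hF : ∀ b, |F b| ≤ 1) (h : ZeroMean F q H) (X Y : ℕ) (A A' b e σ r : ℤ) (hA' : 0 < A')
    (hδ : A * b - e * A' ≠ 0) (hdvd : (PP 0 z : ℤ) * (A * b - e * A') ∣ (q : ℤ)) :
    |∑ p ∈ (Icc (1 : ℤ) X ×ˢ Icc (1 : ℤ) Y).filter
        (fun p => p.1 ≡ r [ZMOD (PP 0 z : ℤ) * A'] ∧ A' * p.2 - b * p.1 = σ),
      Wt c w y z M p.1 p.2 * F (A * p.2 - e * p.1)| ≤ (VW 0 z)⁻¹ * (2 * H) := by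
  set Q : ℤ := (PP 0 z : ℤ) with hQ
  have hQ0 : 0 < Q := by
    have := PP_pos 0 z
    rw [hQ]; exact_mod_cast this
  have hV : 0 < (VW 0 z)⁻¹ := inv_pos.2 (VW_pos 0 z)
  set S := (Icc (1 : ℤ) X ×ˢ Icc (1 : ℤ) Y).filter
        (fun p => p.1 ≡ r [ZMOD Q * A'] ∧ A' * p.2 - b * p.1 = σ) with hS
  rcases S.eq_empty_or_nonempty with hemp | ⟨p0, hp0⟩
  · rw [hemp, Finset.sum_empty, abs_zero]
    positivity
  obtain ⟨x1, t1⟩ := p0
  rw [hS, Finset.mem_filter, Finset.mem_product, Finset.mem_Icc, Finset.mem_Icc] at hp0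
  simp only at hp0
  obtain ⟨⟨⟨hx1, hx2⟩, ⟨ht1, ht2⟩⟩, hr, hσ⟩ := hp0
  have hQA : 0 < Q * A' := mul_pos hQ0 hA'
  set N : Finset ℤ := (Icc (-(X : ℤ)) X).filter (fun n => (1 ≤ x1 + Q * A' * n ∧ x1 + Q * A' * n ≤ X) ∧
    (1 ≤ t1 + Q * b * n ∧ t1 + Q * b * n ≤ Y)) with hN
  have e1 : ∑ p ∈ S, Wt c w y z M p.1 p.2 * F (A * p.2 - e * p.1) =
      ∑ n ∈ N, Wt c w y z M x1 t1 * F ((A * t1 - e * x1) + (Q * (A * b - e * A')) * n) := by
    symm
    refine Finset.sum_nbij (fun n => (x1 + Q * A' * n, t1 + Q * b * n)) ?_ ?_ ?_ ?_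
    · intro n hn
      rw [hN, Finset.mem_filter, Finset.mem_Icc] at hn
      rw [hS, Finset.mem_filter, Finset.mem_product, Finset.mem_Icc, Finset.mem_Icc]
      refine ⟨⟨hn.2.1, hn.2.2⟩, ?_, ?_⟩
      · refine Int.ModEq.trans ?_ hr
        exact Int.modEq_iff_dvd.2 ⟨-n, by ring⟩
      · simp only
        linear_combination hσ
    · intro n _ n' _ hnn
      simp only [Prod.mk.injEq] at hnn
      have : Q * A' * n = Q * A' * n' := by linarith [hnn.1]
      exact mul_left_cancel₀ hQA.ne' this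
    · intro p hp
      rw [hS, Finset.mem_coe, Finset.mem_filter, Finset.mem_product, Finset.mem_Icc, Finset.mem_Icc] at hp
      obtain ⟨⟨⟨h1, h2⟩, ⟨h3, h4⟩⟩, h5, h6⟩ := hp
      obtain ⟨n, hn⟩ := Int.modEq_iff_dvd.1 (hr.trans h5.symm)
      have hx : p.1 = x1 + Q * A' * n := by linarith
      have ht : p.2 = t1 + Q * b * n := by
        have : A' * p.2 = A' * (t1 + Q * b * n) := by
          rw [hx] at h6
          linear_combination h6 - hσ
        exact mul_left_cancel₀ hA'.ne' this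
      refine ⟨n, ?_, ?_⟩
      · rw [hN, Finset.mem_coe, Finset.mem_filter, Finset.mem_Icc]
        refine ⟨⟨?_, ?_⟩, ⟨by rw [← hx]; exact h1, by rw [← hx]; exact h2⟩,
          ⟨by rw [← ht]; exact h3, by rw [← ht]; exact h4⟩⟩
        · by_contra hlt
          push Not at hlt
          nlinarith
        · by_contra hlt
          push Not at hlt
          nlinarith
      · ext
        · exact hx.symm
        · exact ht.symm
    · intro n _
      have hw : Wt c w y z M (x1 + Q * A' * n) (t1 + Q * b * n) = Wt c w y z M x1 t1 := by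
        apply Wt_congr hyz
        · exact Int.modEq_iff_dvd.2 ⟨-(A' * n), by ring⟩
        · exact Int.modEq_iff_dvd.2 ⟨-(b * n), by ring⟩
      simp only
      rw [hw]
      congr 2
      ring
  rw [e1, ← Finset.mul_sum, abs_mul]
  have hne : N.Nonempty := by
    refine ⟨0, ?_⟩
    rw [hN, Finset.mem_filter, Finset.mem_Icc]
    refine ⟨⟨by omega, by omega⟩, ⟨by simpa using hx1, by simpa using hx2⟩, by simpa using ht1, by simpa using ht2⟩
  have hconv : N = Icc (N.min' hne) (N.max' hne) := by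
    apply eq_Icc_of_conv
    intro n1 hn1 n2 hn2 n h1 h2
    rw [hN, Finset.mem_filter, Finset.mem_Icc] at hn1 hn2 ⊢
    have b1 := between_mul (Q * A') n1 n n2 h1 h2
    have b2 := between_mul (Q * b) n1 n n2 h1 h2
    refine ⟨⟨by omega, by omega⟩, ⟨?_, ?_⟩, ?_, ?_⟩
    · rcases b1 with b1 | b1 <;> linarith [hn1.2.1.1, hn2.2.1.1]
    · rcases b1 with b1 | b1 <;> linarith [hn1.2.1.2, hn2.2.1.2]
    · rcases b2 with b2 | b2 <;> linarith [hn1.2.2.1, hn2.2.2.1]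
    · rcases b2 with b2 | b2 <;> linarith [hn1.2.2.2, hn2.2.2.2]
  rw [hconv]
  have hb := prog_bound hq hH hF h (mul_ne_zero hQ0.ne' hδ) hdvd (A * t1 - e * x1) (N.min' hne) (N.max' hne)
  exact mul_le_mul (Wt_abs c w y z M x1 t1) hb (abs_nonneg _) hV.le

/-- the sum over the points of one line -/
theorem line_bound' {c : ℤ} {w y z M q H : ℕ} (hyz : y ≤ z) (hq : 1 ≤ q) (hH : 1 ≤ H) {F : ℤ → ℝ}
    (hF : ∀ b, |F b| ≤ 1) (h : ZeroMean F q H) (X Y : ℕ) (A b e σ : ℤ) (A' : ℕ) (hA' : 0 < A')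
    (hδ : A * b - e * A' ≠ 0) (hdvd : (PP 0 z : ℤ) * (A * b - e * A') ∣ (q : ℤ)) :
    |∑ p ∈ (Icc (1 : ℤ) X ×ˢ Icc (1 : ℤ) Y).filter (fun p => A' * p.2 - b * p.1 = σ),
      Wt c w y z M p.1 p.2 * F (A * p.2 - e * p.1)| ≤ ((PP 0 z : ℝ) * A') * ((VW 0 z)⁻¹ * (2 * H)) := by
  have hQ0 : 0 < PP 0 z := PP_pos 0 z
  have hQA : (0 : ℤ) < (PP 0 z : ℤ) * A' := by
    have := Nat.mul_pos hQ0 hA'
    exact_mod_cast this
  have e1 : ∑ p ∈ (Icc (1 : ℤ) X ×ˢ Icc (1 : ℤ) Y).filter (fun p => A' * p.2 - b * p.1 = σ),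
      Wt c w y z M p.1 p.2 * F (A * p.2 - e * p.1) =
      ∑ r ∈ Ico (0 : ℤ) ((PP 0 z : ℤ) * A'), ∑ p ∈ (Icc (1 : ℤ) X ×ˢ Icc (1 : ℤ) Y).filter
        (fun p => p.1 ≡ r [ZMOD (PP 0 z : ℤ) * A'] ∧ A' * p.2 - b * p.1 = σ),
      Wt c w y z M p.1 p.2 * F (A * p.2 - e * p.1) := by
    rw [← Finset.sum_fiberwise_of_maps_to (g := fun p : ℤ × ℤ => p.1 % ((PP 0 z : ℤ) * A'))
      (t := Ico (0 : ℤ) ((PP 0 z : ℤ) * A'))]
    · apply Finset.sum_congr rfl
      intro r hr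
      rw [Finset.mem_Ico] at hr
      apply Finset.sum_congr _ (fun _ _ => rfl)
      rw [Finset.filter_filter]
      apply Finset.filter_congr
      intro p _
      unfold Int.ModEq
      rw [Int.emod_eq_of_lt hr.1 hr.2]
      tauto
    · intro p _
      rw [Finset.mem_Ico]
      exact ⟨Int.emod_nonneg _ hQA.ne', Int.emod_lt_of_pos _ hQA⟩
  rw [e1]
  refine (Finset.abs_sum_le_sum_abs _ _).trans ?_
  refine (Finset.sum_le_sum fun r _ => line_bound (c := c) (w := w) (M := M) hyz hq hH hF h X Y A A' b e σ r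
    (by exact_mod_cast hA') hδ hdvd).trans ?_
  rw [Finset.sum_const, Int.card_Ico, nsmul_eq_mul]
  apply le_of_eq
  congr 1
  rw [sub_zero]
  have : ((((PP 0 z : ℤ) * A').toNat : ℤ) : ℝ) = (((PP 0 z : ℤ) * A' : ℤ) : ℝ) := by
    rw [Int.toNat_of_nonneg hQA.le]
  push_cast at this
  simpa using this

theorem sum_nat_int (X : ℕ) (g : ℤ → ℝ) : ∑ x ∈ Icc 1 X, g (x : ℤ) = ∑ x ∈ Icc (1 : ℤ) X, g x := by
  refine Finset.sum_nbij (fun n : ℕ => (n : ℤ)) ?_ ?_ ?_ ?_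
  · intro n hn
    rw [Finset.mem_Icc] at hn ⊢
    omega
  · intro n _ n' _ hnn
    simpa using hnn
  · intro b hb
    rw [Finset.mem_coe, Finset.mem_Icc] at hb
    refine ⟨b.toNat, ?_, by simp only; omega⟩
    rw [Finset.mem_coe, Finset.mem_Icc]
    omega
  · intro n _
    rfl

/-- subtask SP -/
theorem t_SP : ∀ a c : ℤ, a ≠ 0 → c ≠ 0 → S_SP a c := by
  intro a c ha _ w y z M m m' q hq _ _ hyz hM hm hm' hmm hdvd ε hε
  have hM0 : 0 < M := Nat.pos_of_ne_zero (fun h0 => by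
    rw [h0, zero_dvd_iff] at hM
    have := PP_pos w y
    omega)
  have hm0 : 0 < m := Nat.pos_of_dvd_of_pos hm hM0
  have hm'0 : 0 < m' := Nat.pos_of_dvd_of_pos hm' hM0
  obtain ⟨A, hA⟩ := hm
  obtain ⟨A', hA'⟩ := hm'
  have hMA : M / m = A := by rw [hA]; exact Nat.mul_div_cancel_left A hm0
  have hMA' : M / m' = A' := by rw [hA']; exact Nat.mul_div_cancel_left A' hm'0
  have hA0 : 0 < A := Nat.pos_of_ne_zero (fun h0 => by rw [h0] at hA; simp at hA; omega)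
  have hA'0 : 0 < A' := Nat.pos_of_ne_zero (fun h0 => by rw [h0] at hA'; simp at hA'; omega)
  have hV : 0 < VW 0 z := VW_pos 0 z
  have hQ0 : 0 < PP 0 z := PP_pos 0 z
  have hmZ : (0 : ℤ) < m := by exact_mod_cast hm0
  have hm'Z : (0 : ℤ) < m' := by exact_mod_cast hm'0
  have hMZ : (0 : ℤ) < M := by exact_mod_cast hM0
  have hAZ : (M : ℤ) = m * A := by exact_mod_cast hA
  have hA'Z : (M : ℤ) = m' * A' := by exact_mod_cast hA'
  -- `δ`
  have hδ : (A : ℤ) * (a * m') - (a * m) * A' ≠ 0 := by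
    intro h0
    have h1 : a * (A * m' - m * A') = 0 := by linear_combination h0
    rcases mul_eq_zero.1 h1 with h2 | h2
    · exact ha h2
    · have h3 : (M : ℤ) * (m' * m') = M * (m * m) := by
        have e1 : (M : ℤ) * (m' * m') = m * (A * m') * m' := by rw [hAZ]; ring
        have e2 : (M : ℤ) * (m * m) = m * (m * A') * m' := by rw [hA'Z]; ring
        rw [e1, e2]
        have : (A : ℤ) * m' = m * A' := by linarith
        rw [this]
      have h4 : (m' : ℤ) * m' = m * m := mul_left_cancel₀ hMZ.ne' h3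
      have h5 : (m' : ℤ) = m := by nlinarith
      exact hmm (by exact_mod_cast h5.symm)
  have hdvd' : (PP 0 z : ℤ) * ((A : ℤ) * (a * m') - (a * m) * A') ∣ (q : ℤ) := by
    refine Dvd.dvd.trans ?_ hdvd
    refine mul_dvd_mul_left _ ?_
    refine ⟨-((m : ℤ) * m'), ?_⟩
    have e1 : a * M * ((m : ℤ) ^ 2 - (m' : ℤ) ^ 2) = a * (M * (m : ℤ) ^ 2) - a * (M * (m' : ℤ) ^ 2) := by ring
    have e2 : (M : ℤ) * (m : ℤ) ^ 2 = m * (m * A') * m' := by rw [hA'Z]; ring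
    have e3 : (M : ℤ) * (m' : ℤ) ^ 2 = m * (A * m') * m' := by rw [hAZ]; ring
    rw [e1, e2, e3]
    ring
  refine ⟨ε * VW 0 z / (2 * (PP 0 z : ℝ) * A' ^ 2), by positivity, 0, ?_⟩
  intro B _ X Y H F hH hHX _ _ _ _ hBY hAdm hZ
  rw [hMA, hMA']
  rw [hMA'] at hBY
  obtain ⟨hF, hsupp⟩ := hAdm
  -- reorganize
  have e1 : ∑ x ∈ Icc 1 X, ∑ t ∈ Icc 1 Y, rg w y x * rg w y t * lz z ((M : ℤ) * x * t + c) *
      F ((A : ℤ) * t - a * m * x) * F ((A' : ℤ) * t - a * m' * x) =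
      ∑ p ∈ Icc (1 : ℤ) X ×ˢ Icc (1 : ℤ) Y,
        (Wt c w y z M p.1 p.2 * F ((A : ℤ) * p.2 - a * m * p.1)) * F ((A' : ℤ) * p.2 - a * m' * p.1) := by
    rw [Finset.sum_product]
    rw [← sum_nat_int X (fun x => ∑ t ∈ Icc (1 : ℤ) Y,
      (Wt c w y z M x t * F ((A : ℤ) * t - a * m * x)) * F ((A' : ℤ) * t - a * m' * x))]
    apply Finset.sum_congr rfl
    intro x _
    rw [← sum_nat_int Y (fun t => 
      (Wt c w y z M x t * F ((A : ℤ) * t - a * m * x)) * F ((A' : ℤ) * t - a * m' * x))]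
    rfl
  have e2 : ∀ p : ℤ × ℤ, (Wt c w y z M p.1 p.2 * F ((A : ℤ) * p.2 - a * m * p.1)) * F ((A' : ℤ) * p.2 - a * m' * p.1) =
      ∑ σ ∈ Ioc (B : ℤ) (2 * B), F σ * (if (A' : ℤ) * p.2 - a * m' * p.1 = σ then
        (Wt c w y z M p.1 p.2 * F ((A : ℤ) * p.2 - a * m * p.1)) else 0) := by
    intro p
    by_cases hσ : (B : ℤ) < (A' : ℤ) * p.2 - a * m' * p.1 ∧ (A' : ℤ) * p.2 - a * m' * p.1 ≤ 2 * B
    · rw [Finset.sum_eq_single ((A' : ℤ) * p.2 - a * m' * p.1)]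
      · rw [if_pos rfl]; ring
      · intro σ _ hne
        rw [if_neg (fun h => hne h.symm), mul_zero]
      · intro hnot
        exfalso
        exact hnot (by rw [Finset.mem_Ioc]; exact hσ)
    · rw [hsupp _ hσ, mul_zero]
      symm
      apply Finset.sum_eq_zero
      intro σ hmem
      rw [Finset.mem_Ioc] at hmem
      rw [if_neg, mul_zero]
      intro h
      rw [h] at hσ
      exact hσ hmem
  rw [e1]
  simp_rw [e2]
  rw [Finset.sum_comm]
  simp_rw [← Finset.mul_sum, ← Finset.sum_filter]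
  refine (Finset.abs_sum_le_sum_abs _ _).trans ?_
  have hb : ∀ σ ∈ Ioc (B : ℤ) (2 * B), |F σ * ∑ p ∈ (Icc (1 : ℤ) X ×ˢ Icc (1 : ℤ) Y).filter
      (fun p => (A' : ℤ) * p.2 - a * m' * p.1 = σ), Wt c w y z M p.1 p.2 * F ((A : ℤ) * p.2 - a * m * p.1)| ≤
      ((PP 0 z : ℝ) * A') * ((VW 0 z)⁻¹ * (2 * H)) := by
    intro σ _
    rw [abs_mul]
    have := line_bound' (c := c) (w := w) (M := M) hyz hq hH hF hZ X Y A (a * m') (a * m) σ A' hA'0 hδ hdvd'
    calc _ ≤ 1 * (((PP 0 z : ℝ) * A') * ((VW 0 z)⁻¹ * (2 * H))) :=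
          mul_le_mul (hF σ) this (abs_nonneg _) zero_le_one
      _ = _ := one_mul _
  refine (Finset.sum_le_sum hb).trans ?_
  rw [Finset.sum_const, Int.card_Ioc, nsmul_eq_mul]
  have hc : (((2 * (B : ℤ) - B).toNat : ℕ) : ℝ) = B := by
    have : (2 * (B : ℤ) - B).toNat = B := by omega
    rw [this]
  rw [hc]
  have hBY' : (B : ℝ) ≤ A' * Y := by exact_mod_cast hBY
  have hH0 : (0 : ℝ) ≤ H := by positivity
  have hA'R : (0 : ℝ) < A' := by exact_mod_cast hA'0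
  have hQR : (0 : ℝ) < PP 0 z := by exact_mod_cast hQ0
  calc (B : ℝ) * (((PP 0 z : ℝ) * A') * ((VW 0 z)⁻¹ * (2 * H)))
      ≤ (A' * Y) * (((PP 0 z : ℝ) * A') * ((VW 0 z)⁻¹ * (2 *
        (ε * VW 0 z / (2 * (PP 0 z : ℝ) * A' ^ 2) * X)))) := by
        gcongr
    _ = ε * ((X : ℝ) * Y) := by
        field_simp

end

end Pool.Agent.N327.QL
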